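import Pool.Agent.T6.H92.CB.Fin
import Pool.Agent.T6.H92.CB.Orm
import Pool.Agent.T6.H92.CB.Small
import Pool.Agent.T6.H92.CB.Randp
import Pool.Agent.T6.H92.CB.Randx
import Pool.Agent.T6.H92.CB.Pra
import Pool.Agent.T6.H92.CB.Prb
import Pool.Agent.T6.H92.CB.Prc
import Pool.Agent.T6.H92.CB.Sia
import Pool.Agent.T6.H92.CB.Sib
import Pool.Agent.T6.H92.CB.Cnt
import Pool.Agent.T6.H92.CB.Num
import Pool.Agent.T6.H92.CB.Crd
import Pool.Agent.T6.H92.CB.Dens
import Pool.Agent.T6.H92.CB.Opo

/-!
# A set of positive lower density all of whose infinite subsets compress a fixed real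

The negated form of Q1 of MP_fa2eca_lc: there are `X` and `A` of lower density at least `1/2` such
that for every infinite `B ⊆ A` and every constant `c` one has
`C^B(X ↾ n) < C(X ↾ n) - c` for all but finitely many `n`.
-/

set_option autoImplicit false

namespace Pool.Agent.Results.MP_fa2eca_lc.CompressingSubsets

open Pool.Agent.T6.H92.CB

/-- the lower density of the set with characteristic sequence `A` -/
noncomputable def lowerDensity (A : ℕ → Bool) : ℝ :=
  Filter.liminf (fun n : ℕ => (((Finset.range n).filter (fun b => A b = true)).card : ℝ) / n)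
    Filter.atTop

/-- the first `n` bits of `X` -/
def restr (X : ℕ → Bool) (n : ℕ) : List Bool := (List.range n).map X

/-- `U` is an optimal machine for plain complexity. -/
def OptimalMachine (U : List Bool →. List Bool) : Prop :=
  Partrec U ∧ ∀ M : List Bool →. List Bool, Partrec M → ∃ c : ℕ, ∀ τ y : List Bool,
    y ∈ M τ → ∃ τ' : List Bool, τ'.length ≤ τ.length + c ∧ y ∈ U τ'

/-- An oracle machine (Turing functional from strings to strings): the graph of `V B` is
enumerated from the finite initial segments of the oracle `B`, by one computably enumerable set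
`G` of axioms `(σ, τ, y)` (meaning: with an oracle that extends `σ` the output on the input `τ` is
`y`) for all oracles `B`. -/
def OracleMachine (V : (ℕ → Bool) → List Bool →. List Bool) : Prop :=
  ∃ G : List Bool × List Bool × List Bool → Prop, REPred G ∧
    (∀ σ σ' τ y, σ <+: σ' → G (σ, τ, y) → G (σ', τ, y)) ∧
    ∀ (B : ℕ → Bool) (τ y : List Bool), y ∈ V B τ ↔ ∃ s, G (restr B s, τ, y)

/-- `V` is an optimal oracle machine. -/
def OptimalOracleMachine (V : (ℕ → Bool) → List Bool →. List Bool) : Prop :=
  OracleMachine V ∧ ∀ M : (ℕ → Bool) → List Bool →. List Bool, OracleMachine M → ∃ c : ℕ,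
    ∀ (B : ℕ → Bool) (τ y : List Bool), y ∈ M B τ →
      ∃ τ' : List Bool, τ'.length ≤ τ.length + c ∧ y ∈ V B τ'

/-- the plain complexity of `y` with respect to the machine `U`: the least length of a
description -/
noncomputable def C (U : List Bool →. List Bool) (y : List Bool) : ℕ :=
  sInf {n | ∃ τ : List Bool, τ.length = n ∧ y ∈ U τ}

/-- **Optimal machines and optimal oracle machines exist, and there are `X` and `A` such that `A`
has lower density at least `1/2` and for every infinite subset `B` of `A` and every `c` we have
`C^B(X ↾ n) < C(X ↾ n) - c` for all but finitely many `n`** (for all choices of the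
optimal machines in the definitions of `C` and `C^B`). -/
theorem result :
    (∃ U, OptimalMachine U) ∧ (∃ V, OptimalOracleMachine V) ∧
    ∃ X A : ℕ → Bool, 1 / 2 ≤ lowerDensity A ∧
      ∀ U, OptimalMachine U → ∀ V, OptimalOracleMachine V →
        ∀ B : ℕ → Bool, (∀ n, B n = true → A n = true) → {n | B n = true}.Infinite →
          ∀ c : ℕ, ∀ᶠ n in Filter.atTop,
            (C (V B) (restr X n) : ℤ) < (C U (restr X n) : ℤ) - c := by
  refine ⟨opt.1, opo, ?_⟩
  have hrand : StmRAND := ⟨apr, randp, randx.1, randx.2⟩
  have h := fin pra small hrand (sia pra (prb) (prc)) (sib pra prc) (crd cnt num) dens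
  obtain ⟨X, A, hA, h⟩ := h
  refine ⟨X, A, ?_, ?_⟩
  · refine Filter.le_liminf_of_le ?_ ?_
    · refine Filter.isCoboundedUnder_ge_of_le (x := 1) _ (fun n => ?_)
      rcases Nat.eq_zero_or_pos n with h0 | h0
      · subst h0; simp
      · rw [div_le_one (by exact_mod_cast h0)]
        have h1 := Finset.card_filter_le (Finset.range n) (fun b => A b = true)
        rw [Finset.card_range] at h1
        exact_mod_cast h1
    · filter_upwards [Filter.eventually_gt_atTop 0] with n hn
      rw [le_div_iff₀ (by exact_mod_cast hn)]
      have h1 : (n : ℝ) ≤ 2 * (((Finset.range n).filter (fun b => A b = true)).card : ℝ) := by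
        exact_mod_cast hA n
      linarith
  · intro U hU V hV B hBA hB c
    obtain ⟨n₀, hn⟩ := h U hU B hBA hB (V B) (orm V hV B) c
    filter_upwards [Filter.eventually_ge_atTop n₀] with n hn'
    have h1 := hn n hn'
    have h2 : C (V B) (restr X n) + c < C U (restr X n) := h1
    omega

end Pool.Agent.Results.MP_fa2eca_lc.CompressingSubsets
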